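import Pool.Agent.P.MP_6045b2_co.Lattice

/-! Asymptotics. -/

namespace Pool.Agent.P.MP_6045b2_co

open Real Filter

lemma two_lt_threshold (k : ℕ) (hk : 6 ≤ k) : 2 < sqrt (2 * k / logb 2 (k + 1)) := by
  have h1 : (k + 1) ^ 2 < 2 ^ k := by
    induction k, hk using Nat.le_induction with
    | base => norm_num
    | succ k hk ih =>
      have : (k + 1 + 1) ^ 2 ≤ 2 * (k + 1) ^ 2 := by nlinarith
      calc (k + 1 + 1) ^ 2 ≤ 2 * (k + 1) ^ 2 := this
        _ < 2 * 2 ^ k := by omega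
        _ = 2 ^ (k + 1) := by ring
  have hk' : (6 : ℝ) ≤ k := by exact_mod_cast hk
  have hl : 0 < logb 2 ((k : ℝ) + 1) := logb_pos (by norm_num) (by linarith)
  have h2 : 2 * logb 2 ((k : ℝ) + 1) < k := by
    have h3 : (((k : ℝ) + 1) ^ 2) < 2 ^ k := by exact_mod_cast h1
    have h4 := logb_lt_logb (b := 2) (by norm_num) (by positivity) h3
    rw [logb_pow, logb_pow, logb_self_eq_one (by norm_num)] at h4
    push_cast at h4
    linarith
  rw [lt_sqrt (by norm_num), lt_div_iff₀ hl]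
  linarith

lemma size_bound (k q α n : ℕ) (hk : 1 ≤ k) (hq : 1 ≤ q) (hα : k * α ≤ q + k)
    (hn : n = α * (q - 1) + q) :
    ((4 * n ^ 2 * q * k * (k + 1) ^ (n / 2 + 1) : ℕ) : ℝ) ≤
      (2 : ℝ) ^ (logb 2 (k + 1) * ((q : ℝ) ^ 2 / (2 * k) + q + 1) + 5 * q + 6 + k) := by
  have hk' : (1 : ℝ) ≤ k := by exact_mod_cast hk
  have hq' : (1 : ℝ) ≤ q := by exact_mod_cast hq
  have hl : 0 < logb 2 ((k : ℝ) + 1) := logb_pos (by norm_num) (by linarith)
  have hn1 : k * n ≤ q ^ 2 + 2 * k * q := by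
    have h1 : n ≤ α * q + q := by
      rw [hn]
      exact Nat.add_le_add_right (Nat.mul_le_mul_left _ (by omega)) _
    calc k * n ≤ k * (α * q + q) := Nat.mul_le_mul_left _ h1
      _ = (k * α) * q + k * q := by ring
      _ ≤ (q + k) * q + k * q := Nat.add_le_add_right (Nat.mul_le_mul_right _ hα) _
      _ = q ^ 2 + 2 * k * q := by ring
  have hn2 : n ≤ 3 * q ^ 2 := by
    have h1 : k * n ≤ k * (3 * q ^ 2) := by
      have a1 : q ^ 2 ≤ k * q ^ 2 := Nat.le_mul_of_pos_left _ hk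
      have a2 : k * q ≤ k * q ^ 2 := Nat.mul_le_mul_left _ (by nlinarith)
      nlinarith
    exact Nat.le_of_mul_le_mul_left h1 hk
  have hn3 : ((n / 2 + 1 : ℕ) : ℝ) ≤ (q : ℝ) ^ 2 / (2 * k) + q + 1 := by
    have h1 : ((n / 2 : ℕ) : ℝ) ≤ (n : ℝ) / 2 := Nat.cast_div_le
    have h2 : (k : ℝ) * n ≤ (q : ℝ) ^ 2 + 2 * k * q := by exact_mod_cast hn1
    have h3 : (n : ℝ) / 2 ≤ (q : ℝ) ^ 2 / (2 * k) + q := by
      rw [div_add' _ _ _ (by positivity), div_le_div_iff₀ (by norm_num) (by positivity)]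
      nlinarith
    push_cast
    linarith
  have hA : 4 * n ^ 2 * q * k ≤ 2 ^ (5 * q + 6 + k) := by
    have a1 : q ≤ 2 ^ q := Nat.lt_two_pow_self.le
    have a2 : k ≤ 2 ^ k := Nat.lt_two_pow_self.le
    calc 4 * n ^ 2 * q * k ≤ 4 * (3 * q ^ 2) ^ 2 * q * k := by gcongr
      _ = 36 * q ^ 5 * k := by ring
      _ ≤ 64 * (2 ^ q) ^ 5 * 2 ^ k := by gcongr; norm_num
      _ = 2 ^ (5 * q + 6 + k) := by ring
  have hB : (((k + 1) ^ (n / 2 + 1) : ℕ) : ℝ) ≤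
      (2 : ℝ) ^ (logb 2 (k + 1) * ((q : ℝ) ^ 2 / (2 * k) + q + 1)) := by
    rw [rpow_mul (by norm_num), rpow_logb (by norm_num) (by norm_num) (by positivity)]
    rw [Nat.cast_pow, ← rpow_natCast]
    push_cast at hn3 ⊢
    exact rpow_le_rpow_of_exponent_le (by linarith) hn3
  have hA' : ((4 * n ^ 2 * q * k : ℕ) : ℝ) ≤ (2 : ℝ) ^ (5 * (q : ℝ) + 6 + k) := by
    have : ((4 * n ^ 2 * q * k : ℕ) : ℝ) ≤ ((2 ^ (5 * q + 6 + k) : ℕ) : ℝ) := by exact_mod_cast hA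
    refine this.trans (le_of_eq ?_)
    rw [Nat.cast_pow, ← rpow_natCast]
    push_cast
    rfl
  rw [Nat.cast_mul]
  calc _ ≤ (2 : ℝ) ^ (5 * (q : ℝ) + 6 + k) *
        (2 : ℝ) ^ (logb 2 (k + 1) * ((q : ℝ) ^ 2 / (2 * k) + q + 1)) :=
        mul_le_mul hA' hB (by positivity) (by positivity)
    _ = _ := by
        rw [← rpow_add (by norm_num)]
        congr 1
        ring

theorem maker_builds_pos (k : ℕ) (hk : 1 ≤ k) (c : ℝ) (hc0 : 0 < c)
    (hc : c < sqrt (2 * k / logb 2 (k + 1))) : ∃ N₀ : ℕ, ∀ N ≥ N₀, MakerBuilds k N c := by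
  have hk' : (1 : ℝ) ≤ k := by exact_mod_cast hk
  set l : ℝ := logb 2 ((k : ℝ) + 1) with hl
  have hl0 : 0 < l := logb_pos (by norm_num) (by linarith)
  set θ : ℝ := l * c ^ 2 / (2 * k) with hθ
  have hθ1 : θ < 1 := by
    rw [lt_sqrt hc0.le, lt_div_iff₀ hl0] at hc
    rw [hθ, div_lt_one (by positivity)]
    linarith
  set A : ℝ := l * c / k + (l + 5) * c with hA
  set B : ℝ := l / (2 * k) + 2 * l + 11 + k with hB
  have hA0 : 0 ≤ A := by positivity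
  have hB0 : 0 ≤ B := by positivity
  have ht : Tendsto (fun N : ℕ => sqrt (logb 2 (N : ℝ))) atTop atTop :=
    tendsto_sqrt_atTop.comp ((tendsto_logb_atTop (by norm_num)).comp tendsto_natCast_atTop_atTop)
  have hev := (ht.eventually_ge_atTop (max (max 1 (2 / c)) ((A + B) / (1 - θ)))).and
    (eventually_ge_atTop 1)
  obtain ⟨N₀, hN₀⟩ := eventually_atTop.1 hev
  refine ⟨N₀, fun N hN => ?_⟩
  obtain ⟨hx, hN1⟩ := hN₀ N hN
  set x : ℝ := sqrt (logb 2 (N : ℝ)) with hxdef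
  have hx1 : 1 ≤ x := le_trans (le_trans (le_max_left _ _) (le_max_left _ _)) hx
  have hx2 : 2 / c ≤ x := le_trans (le_trans (le_max_right _ _) (le_max_left _ _)) hx
  have hx3 : (A + B) / (1 - θ) ≤ x := le_trans (le_max_right _ _) hx
  have hN' : (1 : ℝ) ≤ N := by exact_mod_cast hN1
  have hxx : x ^ 2 = logb 2 (N : ℝ) := sq_sqrt (logb_nonneg (by norm_num) hN')
  have hNx : (N : ℝ) = 2 ^ (x ^ 2) := by
    rw [hxx, rpow_logb (by norm_num) (by norm_num) (by linarith)]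
  set q : ℕ := ⌈c * x⌉₊ with hq
  have hq1 : c * x ≤ q := Nat.le_ceil _
  have hq2 : (q : ℝ) ≤ c * x + 1 := (Nat.ceil_lt_add_one (by positivity)).le
  have hq3 : 2 ≤ q := by
    rw [div_le_iff₀ hc0] at hx2
    have : (2 : ℝ) ≤ q := by linarith
    exact_mod_cast this
  set α : ℕ := q / k + 1 with hα
  have hα1 : q ≤ k * α := by
    have := Nat.div_add_mod q k
    have := Nat.mod_lt q (show k > 0 by omega)
    rw [hα, mul_add]
    omega
  have hα2 : k * α ≤ q + k := by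
    have := Nat.mul_div_le q k
    rw [hα, mul_add]
    omega
  have hsize := size_bound k q α _ hk (by omega) hα2 rfl
  have hexp : l * ((q : ℝ) ^ 2 / (2 * k) + q + 1) + 5 * q + 6 + k ≤ x ^ 2 := by
    have hq0 : (0 : ℝ) ≤ q := by positivity
    have e1 : (q : ℝ) ^ 2 ≤ (c * x + 1) ^ 2 := by gcongr
    have e2 : l * ((q : ℝ) ^ 2 / (2 * k) + q + 1) + 5 * q + 6 + k ≤
        l * ((c * x + 1) ^ 2 / (2 * k) + (c * x + 1) + 1) + 5 * (c * x + 1) + 6 + k := by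
      gcongr
    have e3 : l * ((c * x + 1) ^ 2 / (2 * k) + (c * x + 1) + 1) + 5 * (c * x + 1) + 6 + k =
        θ * x ^ 2 + A * x + B := by
      rw [hθ, hA, hB]
      field_simp
      ring
    rw [div_le_iff₀ (by linarith)] at hx3
    have e4 : A * x + B ≤ (A + B) * x := by nlinarith
    have e5 : (A + B) * x ≤ x * (1 - θ) * x := by gcongr
    nlinarith
  have hfin : 4 * (α * (q - 1) + q) ^ 2 * q * k * (k + 1) ^ ((α * (q - 1) + q) / 2 + 1) ≤ N := by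
    have : ((4 * (α * (q - 1) + q) ^ 2 * q * k * (k + 1) ^ ((α * (q - 1) + q) / 2 + 1) : ℕ) : ℝ)
        ≤ N := by
      refine hsize.trans ?_
      rw [hNx]
      exact rpow_le_rpow_of_exponent_le (by norm_num) hexp
    exact_mod_cast this
  obtain ⟨σ, hσ⟩ := maker_finite k q α _ N hk hq3 (Nat.succ_pos _) hα1 rfl hfin
  refine ⟨σ, fun τ => ?_⟩
  obtain ⟨L, h1, h2, h3⟩ := hσ τ
  exact ⟨q, L, hq1, h1, h2, h3⟩

lemma MakerBuilds.mono {k N : ℕ} {c c' : ℝ} (h : c ≤ c') (H : MakerBuilds k N c') :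
    MakerBuilds k N c := by
  obtain ⟨σ, hσ⟩ := H
  refine ⟨σ, fun τ => ?_⟩
  obtain ⟨q, L, h1, h2⟩ := hσ τ
  exact ⟨q, L, le_trans (mul_le_mul_of_nonneg_right h (sqrt_nonneg _)) h1, h2⟩

theorem maker_builds (k : ℕ) (hk : 6 ≤ k) (c : ℝ)
    (hc : c < sqrt (2 * k / logb 2 (k + 1))) : ∃ N₀ : ℕ, ∀ N ≥ N₀, MakerBuilds k N c := by
  have h2 := two_lt_threshold k hk
  obtain ⟨N₀, h⟩ := maker_builds_pos k (by omega) (max c 1)
    (lt_of_lt_of_le one_pos (le_max_right _ _)) (max_lt hc (by linarith))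
  exact ⟨N₀, fun N hN => (h N hN).mono (le_max_left _ _)⟩

end Pool.Agent.P.MP_6045b2_co
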