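import Mathlib

/-! The fair `(k:k)` achievement game on the `N × N` board and parallelogram lattices. -/

namespace Pool.Agent.P.MP_6045b2_co

/-- The board `{1, …, N}² ⊆ ℤ²`. -/
noncomputable def board (N : ℕ) : Finset (ℤ × ℤ) := Finset.Icc (1 : ℤ) N ×ˢ Finset.Icc (1 : ℤ) N

/-- The points of the board not claimed in any move of the history `h`
(a history is the list of all moves made so far, the latest first). -/
noncomputable def unclaimed (N : ℕ) (h : List (Finset (ℤ × ℤ))) : Finset (ℤ × ℤ) :=
  (board N).filter (fun p => ∀ S ∈ h, p ∉ S)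

/-- A strategy of one player in the `(k:k)` game on the `N × N` board: to each history it assigns
a legal move, that is `k` unclaimed points, or all unclaimed points if fewer than `k` remain. -/
structure Strategy (k N : ℕ) where
  move : List (Finset (ℤ × ℤ)) → Finset (ℤ × ℤ)
  move_subset : ∀ h, move h ⊆ unclaimed N h
  card_move : ∀ h, (move h).card = min k (unclaimed N h).card

/-- The history after `t` turns when Maker (who moves first) follows `σ` and Breaker follows `τ`.
Once the board is full all later moves are empty. -/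
def play {k N : ℕ} (σ τ : Strategy k N) : ℕ → List (Finset (ℤ × ℤ))
  | 0 => []
  | t + 1 => (if Even t then σ else τ).move (play σ τ t) :: play σ τ t

/-- The points Maker owns at the end of play: the union of all of Maker's moves. -/
def makerSet {k N : ℕ} (σ τ : Strategy k N) : Set (ℤ × ℤ) :=
  {p | ∃ r : ℕ, p ∈ σ.move (play σ τ (2 * r))}

/-- `L` is a `q × q` parallelogram lattice `{a + i u + j v : 0 ≤ i, j ≤ q - 1}`
with `u, v ∈ ℤ²` linearly independent. -/
def IsParallelogramLattice (q : ℕ) (L : Set (ℤ × ℤ)) : Prop :=
  ∃ a u v : ℤ × ℤ, LinearIndependent ℤ ![u, v] ∧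
    L = {p | ∃ i j : ℕ, i < q ∧ j < q ∧ p = a + i • u + j • v}

/-- Maker has a strategy in the `(k:k)` game on the `N × N` board with which, against every
strategy of Breaker, he ends up owning all points of some `q × q` parallelogram lattice inside
the board with `q ≥ c √(log₂ N)`. -/
def MakerBuilds (k N : ℕ) (c : ℝ) : Prop :=
  ∃ σ : Strategy k N, ∀ τ : Strategy k N, ∃ (q : ℕ) (L : Set (ℤ × ℤ)),
    c * Real.sqrt (Real.logb 2 N) ≤ q ∧ IsParallelogramLattice q L ∧
      L ⊆ ↑(board N) ∧ L ⊆ makerSet σ τ

end Pool.Agent.P.MP_6045b2_co
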