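import Pool.Agent.P.MP_6045b2_co.Defs

/-! From an invariant to a strategy of Maker. -/

namespace Pool.Agent.P.MP_6045b2_co

open Finset

/-- Maker's points after a history. -/
def mkPts : List (Finset (ℤ × ℤ)) → Finset (ℤ × ℤ)
  | [] => ∅
  | S :: h => if Even h.length then S ∪ mkPts h else mkPts h

/-- Breaker's points after a history. -/
def bkPts : List (Finset (ℤ × ℤ)) → Finset (ℤ × ℤ)
  | [] => ∅
  | S :: h => if Even h.length then bkPts h else S ∪ bkPts h

lemma mem_mk_union_bk (h : List (Finset (ℤ × ℤ))) (p : ℤ × ℤ) :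
    p ∈ mkPts h ∪ bkPts h ↔ ∃ S ∈ h, p ∈ S := by
  induction h with
  | nil => simp [mkPts, bkPts]
  | cons S h ih =>
    simp only [mkPts, bkPts, List.mem_cons, exists_eq_or_imp]
    rw [← ih]
    split_ifs <;> simp only [mem_union] <;> tauto

lemma unclaimed_eq (N : ℕ) (h : List (Finset (ℤ × ℤ))) :
    unclaimed N h = board N \ (mkPts h ∪ bkPts h) := by
  ext p
  rw [mem_sdiff, mem_mk_union_bk]
  simp [unclaimed]

lemma length_play {k N : ℕ} (σ τ : Strategy k N) (t : ℕ) : (play σ τ t).length = t := by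
  induction t with
  | zero => rfl
  | succ t ih => simp [play, ih]

lemma play_even {k N : ℕ} (σ τ : Strategy k N) (r : ℕ) :
    play σ τ (2 * r + 1) = σ.move (play σ τ (2 * r)) :: play σ τ (2 * r) := by
  have : Even (2 * r) := even_two_mul r
  simp [play, this]

lemma play_odd {k N : ℕ} (σ τ : Strategy k N) (r : ℕ) :
    play σ τ (2 * r + 1 + 1) = τ.move (play σ τ (2 * r + 1)) :: play σ τ (2 * r + 1) := by
  have : ¬ Even (2 * r + 1) := by simp [parity_simps]
  rw [play]
  simp [this]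

lemma mk_play_odd {k N : ℕ} (σ τ : Strategy k N) (r : ℕ) :
    mkPts (play σ τ (2 * r + 1)) = σ.move (play σ τ (2 * r)) ∪ mkPts (play σ τ (2 * r)) := by
  rw [play_even, mkPts, length_play]
  simp

lemma bk_play_odd {k N : ℕ} (σ τ : Strategy k N) (r : ℕ) :
    bkPts (play σ τ (2 * r + 1)) = bkPts (play σ τ (2 * r)) := by
  rw [play_even, bkPts, length_play]
  simp

lemma mk_play_even {k N : ℕ} (σ τ : Strategy k N) (r : ℕ) :
    mkPts (play σ τ (2 * r + 1 + 1)) = mkPts (play σ τ (2 * r + 1)) := by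
  have : ¬ Even (2 * r + 1) := by simp [parity_simps]
  rw [play_odd, mkPts, length_play]
  simp [this]

lemma bk_play_even {k N : ℕ} (σ τ : Strategy k N) (r : ℕ) :
    bkPts (play σ τ (2 * r + 1 + 1)) =
      τ.move (play σ τ (2 * r + 1)) ∪ bkPts (play σ τ (2 * r + 1)) := by
  have : ¬ Even (2 * r + 1) := by simp [parity_simps]
  rw [play_odd, bkPts, length_play]
  simp [this]

lemma mk_play_subset {k N : ℕ} (σ τ : Strategy k N) (r : ℕ) :
    (↑(mkPts (play σ τ (2 * r))) : Set (ℤ × ℤ)) ⊆ makerSet σ τ := by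
  induction r with
  | zero => simp [play, mkPts]
  | succ r ih =>
    have : 2 * (r + 1) = 2 * r + 1 + 1 := by ring
    rw [this, mk_play_even, mk_play_odd, coe_union]
    refine Set.union_subset ?_ ih
    intro p hp
    exact ⟨r, hp⟩

lemma unclaimed_cons (N : ℕ) (S : Finset (ℤ × ℤ)) (h : List (Finset (ℤ × ℤ))) :
    unclaimed N (S :: h) = unclaimed N h \ S := by
  ext p
  simp only [unclaimed, mem_filter, mem_sdiff, List.mem_cons, forall_eq_or_imp]
  tauto

lemma card_unclaimed_play {k N : ℕ} (hk : 1 ≤ k) (σ τ : Strategy k N) (t : ℕ) :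
    (unclaimed N (play σ τ t)).card ≤ (board N).card - t := by
  induction t with
  | zero => simpa [unclaimed] using card_filter_le _ _
  | succ t ih =>
    rw [play, unclaimed_cons, card_sdiff_of_subset (Strategy.move_subset _ _),
      Strategy.card_move]
    omega

/-- From an invariant that Maker can keep to a strategy. -/
theorem exists_strategy {k N : ℕ} (hk : 1 ≤ k) (Inv : Finset (ℤ × ℤ) → Finset (ℤ × ℤ) → Prop)
    (h0 : Inv ∅ ∅)
    (hstep : ∀ M B, Inv M B → ∃ S₀ ⊆ board N \ (M ∪ B), S₀.card ≤ k ∧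
      ∀ S T : Finset (ℤ × ℤ), S₀ ⊆ S → Disjoint T (S ∪ M) → T.card ≤ k → Inv (S ∪ M) (T ∪ B)) :
    ∃ σ : Strategy k N, ∀ τ : Strategy k N, ∃ M B, Inv M B ∧ board N ⊆ M ∪ B ∧
      (↑M : Set (ℤ × ℤ)) ⊆ makerSet σ τ := by
  have key : ∀ h : List (Finset (ℤ × ℤ)), ∃ S, S ⊆ unclaimed N h ∧
      S.card = min k (unclaimed N h).card ∧ (Inv (mkPts h) (bkPts h) →
        ∀ T : Finset (ℤ × ℤ), Disjoint T (S ∪ mkPts h) → T.card ≤ k →
          Inv (S ∪ mkPts h) (T ∪ bkPts h)) := by
    intro h
    by_cases hI : Inv (mkPts h) (bkPts h)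
    · obtain ⟨S₀, hS₀, hc, hS⟩ := hstep _ _ hI
      rw [← unclaimed_eq] at hS₀
      obtain ⟨S, h1, h2, h3⟩ := exists_subsuperset_card_eq (n := min k (unclaimed N h).card) hS₀
        (le_min hc (card_le_card hS₀)) (min_le_right _ _)
      exact ⟨S, h2, h3, fun _ T hT hTc => hS S T h1 hT hTc⟩
    · obtain ⟨S, h2, h3⟩ := exists_subset_card_eq (s := unclaimed N h)
        (n := min k (unclaimed N h).card) (min_le_right _ _)
      exact ⟨S, h2, h3, fun hI' => absurd hI' hI⟩
  choose f hf1 hf2 hf3 using key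
  refine ⟨⟨f, hf1, hf2⟩, fun τ => ?_⟩
  set σ : Strategy k N := ⟨f, hf1, hf2⟩ with hσ
  have hinv : ∀ r, Inv (mkPts (play σ τ (2 * r))) (bkPts (play σ τ (2 * r))) := by
    intro r
    induction r with
    | zero => simpa [play, mkPts, bkPts] using h0
    | succ r ih =>
      have e : 2 * (r + 1) = 2 * r + 1 + 1 := by ring
      rw [e, mk_play_even, bk_play_even, bk_play_odd, mk_play_odd]
      apply hf3 _ ih
      · have h1 := τ.move_subset (play σ τ (2 * r + 1))
        rw [unclaimed_eq, mk_play_odd] at h1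
        rw [disjoint_left]
        intro p hp hp'
        have := (mem_sdiff.1 (h1 hp)).2
        exact this (mem_union_left _ hp')
      · rw [τ.card_move]
        exact min_le_left _ _
  refine ⟨_, _, hinv (board N).card, ?_, mk_play_subset σ τ _⟩
  have h1 := card_unclaimed_play hk σ τ (2 * (board N).card)
  have h2 : (unclaimed N (play σ τ (2 * (board N).card))).card = 0 := by omega
  rw [card_eq_zero, unclaimed_eq, sdiff_eq_empty_iff_subset] at h2
  exact h2

end Pool.Agent.P.MP_6045b2_co
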