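import Mathlib

/-! The `(1:k)` potential argument on a linear hypergraph of blocks. -/

namespace Pool.Agent.P.MP_6045b2_co

open Finset

set_option linter.unusedSectionVars false

section

variable {P ι Φ : Type} [DecidableEq P] [Fintype ι] [DecidableEq ι] [Fintype Φ] [DecidableEq Φ]

/-- Weight of a winning set. -/
def wt (k : ℕ) (blk : ι → Finset P) (W : Φ → Finset ι) (M B : Finset P) (F : Φ) : ℕ :=
  if ∀ x ∈ W F, Disjoint (blk x) B then (k + 1) ^ ((W F).filter (fun x => blk x ⊆ M)).card else 0

/-- The invariant. -/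
def PInv (k n : ℕ) (blk : ι → Finset P) (W : Φ → Finset ι) (M B : Finset P) : Prop :=
  Fintype.card Φ ≤ ∑ F, wt k blk W M B F +
    (univ.filter (fun x => blk x ⊆ M)).card * (k * (k * (k + 1) ^ n))

lemma wt_le (k n : ℕ) (blk : ι → Finset P) (W : Φ → Finset ι) (hW : ∀ F, (W F).card ≤ n)
    (M B : Finset P) (F : Φ) : wt k blk W M B F ≤ (k + 1) ^ n := by
  unfold wt
  split_ifs
  · exact Nat.pow_le_pow_right (by omega) ((card_filter_le _ _).trans (hW F))
  · exact Nat.zero_le _

lemma pinv_empty (k n : ℕ) (blk : ι → Finset P) (W : Φ → Finset ι) : PInv k n blk W ∅ ∅ := by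
  unfold PInv
  refine le_trans ?_ (Nat.le_add_right _ _)
  rw [← card_univ, card_eq_sum_ones]
  refine sum_le_sum fun F _ => ?_
  unfold wt
  rw [if_pos (by simp)]
  exact Nat.one_le_pow _ _ (by omega)

lemma pinv_final (k n : ℕ) (blk : ι → Finset P) (W : Φ → Finset ι)
    (hbig : Fintype.card ι * (k * (k * (k + 1) ^ n)) < Fintype.card Φ)
    (M B : Finset P) (h : PInv k n blk W M B) : ∃ F, ∀ x ∈ W F, Disjoint (blk x) B := by
  by_contra hc
  push Not at hc
  have h0 : ∑ F, wt k blk W M B F = 0 := by
    refine sum_eq_zero fun F _ => ?_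
    unfold wt
    rw [if_neg]
    intro h'
    obtain ⟨x, hx, hx'⟩ := hc F
    exact hx' (h' x hx)
  unfold PInv at h
  rw [h0, zero_add] at h
  have h1 : (univ.filter (fun x => blk x ⊆ M)).card ≤ Fintype.card ι := card_le_univ _
  have := Nat.mul_le_mul_right (k * (k * (k + 1) ^ n)) h1
  omega

lemma pinv_step (k n : ℕ) (blk : ι → Finset P) (W : Φ → Finset ι) (Bd : Finset P)
    (hW : ∀ F, (W F).card ≤ n) (hsub : ∀ x, blk x ⊆ Bd) (hcard : ∀ x, (blk x).card ≤ k)
    (hdisj : ∀ x y p, p ∈ blk x → p ∈ blk y → x = y)
    (hlin : ∀ x y F G, x ≠ y → x ∈ W F → y ∈ W F → x ∈ W G → y ∈ W G → F = G)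
    (M B : Finset P) (h : PInv k n blk W M B) :
    ∃ S₀ ⊆ Bd \ (M ∪ B), S₀.card ≤ k ∧
      ∀ S T : Finset P, S₀ ⊆ S → Disjoint T (S ∪ M) → T.card ≤ k →
        PInv k n blk W (S ∪ M) (T ∪ B) := by
  classical
  set X : Finset ι := univ.filter (fun x => ¬ blk x ⊆ M ∧ Disjoint (blk x) B) with hX
  set w : Φ → ℕ := wt k blk W M B with hw
  set deg : ι → ℕ := fun x => ∑ F ∈ univ.filter (fun F => x ∈ W F), w F with hdeg
  rcases X.eq_empty_or_nonempty with hXe | hXn
  · refine ⟨∅, empty_subset _, by simp, fun S T _ hT _ => ?_⟩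
    unfold PInv at h ⊢
    refine h.trans (add_le_add (sum_le_sum fun F _ => ?_) (Nat.mul_le_mul_right _ ?_))
    · unfold wt
      split_ifs with h1 h2
      · refine Nat.pow_le_pow_right (by omega) (card_le_card ?_)
        intro x hx
        rw [mem_filter] at hx ⊢
        exact ⟨hx.1, hx.2.trans subset_union_right⟩
      · exfalso
        apply h2
        intro x hx
        have hxM : blk x ⊆ M := by
          by_contra hc
          have : x ∈ X := by simp [hX, hc, h1 x hx]
          simp [hXe] at this
        rw [disjoint_union_right]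
        refine ⟨?_, h1 x hx⟩
        exact (hT.symm.mono_left (hxM.trans subset_union_right))
      · exact Nat.zero_le _
      · exact le_rfl
    · refine card_le_card fun x hx => ?_
      rw [mem_filter] at hx ⊢
      exact ⟨hx.1, hx.2.trans subset_union_right⟩
  · obtain ⟨x, hxX, hxmax⟩ := exists_max_image X deg hXn
    have hx1 : ¬ blk x ⊆ M := (mem_filter.1 hxX).2.1
    have hx2 : Disjoint (blk x) B := (mem_filter.1 hxX).2.2
    refine ⟨blk x \ M, ?_, (card_le_card sdiff_subset).trans (hcard x), fun S T hS hT hTc => ?_⟩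
    · intro p hp
      rw [mem_sdiff] at hp ⊢
      refine ⟨hsub x hp.1, ?_⟩
      rw [mem_union]
      rintro (h1 | h1)
      · exact hp.2 h1
      · exact disjoint_left.1 hx2 hp.1 h1
    have hxM' : blk x ⊆ S ∪ M := by
      intro p hp
      by_cases hpM : p ∈ M
      · exact mem_union_right _ hpM
      · exact mem_union_left _ (hS (mem_sdiff.2 ⟨hp, hpM⟩))
    set Y : Finset ι := univ.filter (fun y => ¬ Disjoint (blk y) T) with hY
    have hYc : Y.card ≤ k := by
      refine le_trans ?_ hTc
      have hex : ∀ y ∈ Y, ∃ p ∈ T, p ∈ blk y := by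
        intro y hy
        have := (mem_filter.1 hy).2
        rw [not_disjoint_iff] at this
        obtain ⟨p, h1, h2⟩ := this
        exact ⟨p, h2, h1⟩
      refine card_le_card_of_forall_subsingleton (fun y p => p ∈ blk y) ?_ ?_
      · intro y hy
        obtain ⟨p, h1, h2⟩ := hex y hy
        exact ⟨p, h1, h2⟩
      · intro p _ y hy y' hy'
        exact hdisj y y' p hy.2 hy'.2
    set w1 : Φ → ℕ := fun F => w F + k * (if x ∈ W F then w F else 0) with hw1
    have hsumw1 : ∑ F, w1 F = ∑ F, w F + k * deg x := by
      simp only [hw1, hdeg, sum_add_distrib, ← mul_sum, sum_filter]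
    have hF : ∀ F, w1 F ≤ wt k blk W (S ∪ M) (T ∪ B) F +
        ∑ y ∈ Y, (if y ∈ W F then w1 F else 0) := by
      intro F
      by_cases hYF : ∃ y ∈ Y, y ∈ W F
      · obtain ⟨y, hy, hyF⟩ := hYF
        refine le_trans ?_ (Nat.le_add_left _ _)
        have := single_le_sum (f := fun y => if y ∈ W F then w1 F else 0)
          (fun _ _ => Nat.zero_le _) hy
        simpa [hyF] using this
      · refine le_trans ?_ (Nat.le_add_right _ _)
        push Not at hYF
        by_cases hal : ∀ z ∈ W F, Disjoint (blk z) B
        · have hal' : ∀ z ∈ W F, Disjoint (blk z) (T ∪ B) := by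
            intro z hz
            rw [disjoint_union_right]
            refine ⟨?_, hal z hz⟩
            by_contra hc
            exact hYF z (by simp [hY, hc]) hz
          have hwF : w F = (k + 1) ^ ((W F).filter (fun x => blk x ⊆ M)).card := by
            simp only [hw, wt]
            rw [if_pos hal]
          have hsubf : (W F).filter (fun x => blk x ⊆ M) ⊆
              (W F).filter (fun x => blk x ⊆ S ∪ M) := by
            intro z hz
            rw [mem_filter] at hz ⊢
            exact ⟨hz.1, hz.2.trans subset_union_right⟩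
          unfold wt
          rw [if_pos hal']
          simp only [hw1]
          split_ifs with hxF
          · have hlt : ((W F).filter (fun x => blk x ⊆ M)).card <
                ((W F).filter (fun x => blk x ⊆ S ∪ M)).card := by
              refine card_lt_card ⟨hsubf, fun hc => ?_⟩
              have : x ∈ (W F).filter (fun x => blk x ⊆ M) := hc (mem_filter.2 ⟨hxF, hxM'⟩)
              exact hx1 (mem_filter.1 this).2
            calc w F + k * w F = (k + 1) ^ (((W F).filter (fun x => blk x ⊆ M)).card + 1) := by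
                  rw [hwF]; ring
              _ ≤ _ := Nat.pow_le_pow_right (by omega) hlt
          · rw [hwF, mul_zero, add_zero]
            exact Nat.pow_le_pow_right (by omega) (card_le_card hsubf)
        · have hwF : w F = 0 := by
            simp only [hw, wt]
            rw [if_neg hal]
          simp [hw1, hwF]
    have hy : ∀ y ∈ Y, ∑ F, (if y ∈ W F then w1 F else 0) ≤ deg x + k * (k + 1) ^ n := by
      intro y hyY
      have hyT : ¬ Disjoint (blk y) T := (mem_filter.1 hyY).2
      have hyx : y ≠ x := by
        rintro rfl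
        exact hyT (hT.symm.mono_left hxM')
      have hdegy : deg y ≤ deg x := by
        by_cases hyB : Disjoint (blk y) B
        · apply hxmax
          have : ¬ blk y ⊆ M := fun hc =>
            hyT (hT.symm.mono_left (hc.trans subset_union_right))
          simp [hX, this, hyB]
        · have : deg y = 0 := by
            refine sum_eq_zero fun F hF' => ?_
            simp only [hw, wt]
            rw [if_neg]
            intro hc
            exact hyB (hc y (mem_filter.1 hF').2)
          omega
      have e1 : ∑ F, (if y ∈ W F then w1 F else 0) =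
          deg y + k * ∑ F ∈ univ.filter (fun F => y ∈ W F ∧ x ∈ W F), w F := by
        simp only [hw1, hdeg, sum_filter, mul_sum, ← sum_add_distrib]
        refine sum_congr rfl fun F _ => ?_
        by_cases h1 : y ∈ W F <;> by_cases h2 : x ∈ W F <;> simp [h1, h2]
      have e2 : ∑ F ∈ univ.filter (fun F => y ∈ W F ∧ x ∈ W F), w F ≤ (k + 1) ^ n := by
        have hc1 : (univ.filter (fun F => y ∈ W F ∧ x ∈ W F)).card ≤ 1 := by
          rw [card_le_one]
          intro F hF' G hG
          have h1 := (mem_filter.1 hF').2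
          have h2 := (mem_filter.1 hG).2
          exact hlin y x F G hyx h1.1 h1.2 h2.1 h2.2
        calc _ ≤ (univ.filter (fun F => y ∈ W F ∧ x ∈ W F)).card • (k + 1) ^ n :=
              sum_le_card_nsmul _ _ _ (fun F _ => wt_le k n blk W hW M B F)
          _ ≤ 1 • (k + 1) ^ n := by
              rw [smul_eq_mul, smul_eq_mul]
              exact Nat.mul_le_mul_right _ hc1
          _ = _ := by simp
      rw [e1]
      exact add_le_add hdegy (Nat.mul_le_mul_left _ e2)
    have htot : ∑ F, w1 F ≤ ∑ F, wt k blk W (S ∪ M) (T ∪ B) F +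
        k * (deg x + k * (k + 1) ^ n) := by
      calc ∑ F, w1 F ≤ ∑ F, (wt k blk W (S ∪ M) (T ∪ B) F +
            ∑ y ∈ Y, (if y ∈ W F then w1 F else 0)) := sum_le_sum fun F _ => hF F
        _ = ∑ F, wt k blk W (S ∪ M) (T ∪ B) F +
            ∑ y ∈ Y, ∑ F, (if y ∈ W F then w1 F else 0) := by
            rw [sum_add_distrib, sum_comm]
        _ ≤ _ := by
            refine Nat.add_le_add_left ?_ _
            calc _ ≤ Y.card • (deg x + k * (k + 1) ^ n) := sum_le_card_nsmul _ _ _ hy
              _ ≤ _ := by
                rw [smul_eq_mul]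
                exact Nat.mul_le_mul_right _ hYc
    have hc : (univ.filter (fun x => blk x ⊆ M)).card + 1 ≤
        (univ.filter (fun x => blk x ⊆ S ∪ M)).card := by
      refine card_lt_card ⟨fun z hz => ?_, fun hc => ?_⟩
      · rw [mem_filter] at hz ⊢
        exact ⟨hz.1, hz.2.trans subset_union_right⟩
      · have : x ∈ univ.filter (fun x => blk x ⊆ M) := hc (mem_filter.2 ⟨mem_univ _, hxM'⟩)
        exact hx1 (mem_filter.1 this).2
    unfold PInv at h ⊢
    have h3 := Nat.mul_le_mul_right (k * (k * (k + 1) ^ n)) hc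
    rw [hsumw1, mul_add] at htot
    rw [add_mul, one_mul] at h3
    change Fintype.card Φ ≤ ∑ F, w F + _ at h
    omega

end

end Pool.Agent.P.MP_6045b2_co
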