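import Pool.Agent.P.MP_6045b2_co.Game
import Pool.Agent.P.MP_6045b2_co.Potential

/-! The block structure on the board and the finite form of Maker's win. -/

namespace Pool.Agent.P.MP_6045b2_co

open Finset

/-- Positions of the `q × q` tile on the line number `s`. -/
def linePos (q α s : ℕ) : Finset (ℕ × ℕ) :=
  (range q ×ˢ range q).filter (fun ij => ij.1 + α * (q - 1) = s + α * ij.2)

/-- The point of the board at position `ij` of the tile `z`. -/
def tilePt (q : ℕ) (z1 z2 : ℕ) (ij : ℕ × ℕ) : ℤ × ℤ :=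
  (((1 + ij.1 + q * z1 : ℕ) : ℤ), ((1 + ij.2 + q * z2 : ℕ) : ℤ))

/-- The block: line `s` in the tile `z`. -/
def blkOf (q α L n : ℕ) (x : (Fin L × Fin L) × Fin n) : Finset (ℤ × ℤ) :=
  (linePos q α x.2).image (tilePt q x.1.1 x.1.2)

/-- The blocks of one lattice. -/
def winOf (L n E D : ℕ) (F : (Fin E × Fin E) × (Fin D × Fin D)) :
    Finset ((Fin L × Fin L) × Fin n) :=
  univ.filter (fun x => (x.1.1 : ℕ) = F.1.1 + x.2 * F.2.1 ∧ (x.1.2 : ℕ) = F.1.2 + x.2 * F.2.2)

lemma card_linePos (k q α s : ℕ) (hα : 0 < α) (hq : q ≤ k * α) : (linePos q α s).card ≤ k := by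
  rw [← card_range k]
  refine card_le_card_of_injOn (fun ij => ij.1 / α) ?_ ?_
  · intro ij hij
    have h1 : ij.1 < q := by
      have := (mem_filter.1 hij).1
      simp only [mem_product, mem_range] at this
      exact this.1
    simp only [coe_range, Set.mem_Iio]
    rw [Nat.div_lt_iff_lt_mul hα]
    omega
  · intro a ha b hb hab
    have h1 := (mem_filter.1 ha).2
    have h2 := (mem_filter.1 hb).2
    simp only at hab
    have e1 : (a.1 + α * (q - 1)) % α = (s + α * a.2) % α := by rw [h1]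
    have e2 : (b.1 + α * (q - 1)) % α = (s + α * b.2) % α := by rw [h2]
    rw [Nat.add_mul_mod_self_left, Nat.add_mul_mod_self_left] at e1 e2
    have e3 : a.1 = b.1 := by
      rw [← Nat.div_add_mod a.1 α, ← Nat.div_add_mod b.1 α, hab, e1, e2]
    have e4 : α * a.2 = α * b.2 := by omega
    exact Prod.ext e3 (Nat.eq_of_mul_eq_mul_left hα e4)

lemma mod_div_unique (q i i' z z' : ℕ) (hi : i < q) (hi' : i' < q)
    (h : 1 + i + q * z = 1 + i' + q * z') : i = i' ∧ z = z' := by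
  have h1 : i + q * z = i' + q * z' := by omega
  have e1 : (i + q * z) % q = (i' + q * z') % q := by rw [h1]
  rw [Nat.add_mul_mod_self_left, Nat.add_mul_mod_self_left, Nat.mod_eq_of_lt hi,
    Nat.mod_eq_of_lt hi'] at e1
  refine ⟨e1, ?_⟩
  have : q * z = q * z' := by omega
  exact Nat.eq_of_mul_eq_mul_left (by omega) this

lemma blk_disj (q α L n : ℕ) (x y : (Fin L × Fin L) × Fin n) (p : ℤ × ℤ)
    (hx : p ∈ blkOf q α L n x) (hy : p ∈ blkOf q α L n y) : x = y := by
  obtain ⟨a, ha, rfl⟩ := mem_image.1 hx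
  obtain ⟨b, hb, hab⟩ := mem_image.1 hy
  simp only [linePos, mem_filter, mem_product, mem_range] at ha hb
  simp only [tilePt, Prod.mk.injEq, Nat.cast_inj] at hab
  obtain ⟨h1, h2⟩ := mod_div_unique q _ _ _ _ hb.1.1 ha.1.1 hab.1
  obtain ⟨h3, h4⟩ := mod_div_unique q _ _ _ _ hb.1.2 ha.1.2 hab.2
  have h5 : (x.2 : ℕ) = y.2 := by
    have e1 := ha.2
    have e2 := hb.2
    rw [h1, h3] at e2
    omega
  exact Prod.ext (Prod.ext (Fin.ext h2.symm) (Fin.ext h4.symm)) (Fin.ext h5)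

lemma blk_subset (q α L n N : ℕ) (hN : q * L ≤ N) (x : (Fin L × Fin L) × Fin n) :
    blkOf q α L n x ⊆ board N := by
  intro p hp
  obtain ⟨a, ha, rfl⟩ := mem_image.1 hp
  simp only [linePos, mem_filter, mem_product, mem_range] at ha
  have key : ∀ (i : ℕ) (z : Fin L), i < q → ((1 + i + q * z : ℕ) : ℤ) ∈ Icc (1 : ℤ) N := by
    intro i z hi
    have h1 : q * (z + 1) ≤ q * L := Nat.mul_le_mul_left _ z.2
    rw [mul_add, mul_one] at h1
    rw [mem_Icc]
    constructor
    · exact_mod_cast (by omega : 1 ≤ 1 + i + q * z)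
    · exact_mod_cast (by omega : 1 + i + q * z ≤ N)
  exact mem_product.2 ⟨key _ _ ha.1.1, key _ _ ha.1.2⟩

lemma card_winOf (L n E D : ℕ) (F : (Fin E × Fin E) × (Fin D × Fin D)) :
    (winOf L n E D F).card ≤ n := by
  have : (winOf L n E D F).card ≤ (univ : Finset (Fin n)).card := by
    refine card_le_card_of_injOn (fun x => x.2) (fun _ _ => by simp) ?_
    intro x hx y hy hxy
    have h1 := (mem_filter.1 hx).2
    have h2 := (mem_filter.1 hy).2
    simp only at hxy
    refine Prod.ext (Prod.ext (Fin.ext ?_) (Fin.ext ?_)) hxy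
    · rw [h1.1, h2.1, hxy]
    · rw [h1.2, h2.2, hxy]
  simpa using this

lemma ap_unique (b u b' u' s t : ℕ) (hst : s ≠ t) (h1 : b + s * u = b' + s * u')
    (h2 : b + t * u = b' + t * u') : b = b' ∧ u = u' := by
  have h3 : ((s : ℤ) - t) * ((u : ℤ) - u') = 0 := by
    have e1 : (b : ℤ) + s * u = b' + s * u' := by exact_mod_cast h1
    have e2 : (b : ℤ) + t * u = b' + t * u' := by exact_mod_cast h2
    linear_combination e1 - e2
  have h4 : (s : ℤ) - t ≠ 0 := by
    rw [sub_ne_zero]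
    exact_mod_cast hst
  have h5 : u = u' := by
    have := (mul_eq_zero.1 h3).resolve_left h4
    rw [sub_eq_zero] at this
    exact_mod_cast this
  subst h5
  exact ⟨by omega, rfl⟩

lemma winOf_linear (L n E D : ℕ) (x y : (Fin L × Fin L) × Fin n)
    (F G : (Fin E × Fin E) × (Fin D × Fin D)) (hxy : x ≠ y) (h1 : x ∈ winOf L n E D F)
    (h2 : y ∈ winOf L n E D F) (h3 : x ∈ winOf L n E D G) (h4 : y ∈ winOf L n E D G) : F = G := by
  have a1 := (mem_filter.1 h1).2
  have a2 := (mem_filter.1 h2).2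
  have a3 := (mem_filter.1 h3).2
  have a4 := (mem_filter.1 h4).2
  have hst : (x.2 : ℕ) ≠ y.2 := by
    intro h
    apply hxy
    refine Prod.ext (Prod.ext (Fin.ext ?_) (Fin.ext ?_)) (Fin.ext h)
    · rw [a1.1, a2.1, h]
    · rw [a1.2, a2.2, h]
  obtain ⟨b1, b2⟩ := ap_unique _ _ _ _ _ _ hst (a1.1.symm.trans a3.1) (a2.1.symm.trans a4.1)
  obtain ⟨b3, b4⟩ := ap_unique _ _ _ _ _ _ hst (a1.2.symm.trans a3.2) (a2.2.symm.trans a4.2)
  exact Prod.ext (Prod.ext (Fin.ext b1) (Fin.ext b3)) (Prod.ext (Fin.ext b2) (Fin.ext b4))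

/-- The finite form of the theorem. -/
theorem maker_finite (k q α n N : ℕ) (hk : 1 ≤ k) (hq : 2 ≤ q) (hα : 0 < α) (hqα : q ≤ k * α)
    (hn : n = α * (q - 1) + q) (hN : 4 * n ^ 2 * q * k * (k + 1) ^ (n / 2 + 1) ≤ N) :
    ∃ σ : Strategy k N, ∀ τ : Strategy k N, ∃ L : Set (ℤ × ℤ),
      IsParallelogramLattice q L ∧ L ⊆ ↑(board N) ∧ L ⊆ makerSet σ τ := by
  classical
  set D : ℕ := 2 * n * k * (k + 1) ^ (n / 2 + 1) with hD
  set E : ℕ := n * D with hE
  set L : ℕ := 2 * E with hL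
  have hn0 : 0 < n := by omega
  have hD0 : 0 < D := by positivity
  have hqL : q * L ≤ N := by
    refine le_trans (le_of_eq ?_) hN
    rw [hL, hE, hD]
    ring
  have hbig : Fintype.card ((Fin L × Fin L) × Fin n) * (k * (k * (k + 1) ^ n)) <
      Fintype.card ((Fin E × Fin E) × (Fin D × Fin D)) := by
    simp only [Fintype.card_prod, Fintype.card_fin]
    have h1 : (k + 1) ^ n < (k + 1) ^ (n / 2 + 1) * (k + 1) ^ (n / 2 + 1) := by
      rw [← pow_add]
      exact Nat.pow_lt_pow_right (by omega) (by omega)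
    have h2 : 4 * n * (k * (k * (k + 1) ^ n)) < D * D := by
      have e : D * D = 4 * n * (k * (k * (n * ((k + 1) ^ (n / 2 + 1) * (k + 1) ^ (n / 2 + 1))))) := by
        rw [hD]; ring
      rw [e]
      refine Nat.mul_lt_mul_of_pos_left ?_ (by omega)
      refine Nat.mul_lt_mul_of_pos_left ?_ (by omega)
      refine Nat.mul_lt_mul_of_pos_left ?_ (by omega)
      exact lt_of_lt_of_le h1 (Nat.le_mul_of_pos_left _ hn0)
    have hE0 : 0 < E * E := by positivity
    calc L * L * n * (k * (k * (k + 1) ^ n)) = E * E * (4 * n * (k * (k * (k + 1) ^ n))) := by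
          rw [hL]; ring
      _ < E * E * (D * D) := Nat.mul_lt_mul_of_pos_left h2 hE0
  obtain ⟨σ, hσ⟩ := exists_strategy (N := N) hk (PInv k n (blkOf q α L n) (winOf L n E D))
    (pinv_empty _ _ _ _)
    (fun M B h => pinv_step k n (blkOf q α L n) (winOf L n E D) (board N) (card_winOf L n E D)
      (blk_subset q α L n N hqL)
      (fun x => card_image_le.trans (card_linePos k q α _ hα hqα))
      (blk_disj q α L n) (winOf_linear L n E D) M B h)
  refine ⟨σ, fun τ => ?_⟩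
  obtain ⟨M, B, hI, hfull, hM⟩ := hσ τ
  obtain ⟨F, hF⟩ := pinv_final k n _ _ hbig M B hI
  obtain ⟨⟨b1, b2⟩, ⟨u1, u2⟩⟩ := F
  let a : ℤ × ℤ := (1 + q * b1 + q * (α * (q - 1) : ℕ) * u1, 1 + q * b2 + q * (α * (q - 1) : ℕ) * u2)
  let u : ℤ × ℤ := (1 + q * u1, q * u2)
  let v : ℤ × ℤ := (-(q * α * u1), 1 - q * α * u2)
  have hmem : ∀ i j : ℕ, i < q → j < q → ∃ x ∈ winOf L n E D ((b1, b2), (u1, u2)),
      a + i • u + j • v ∈ blkOf q α L n x := by
    intro i j hi hj
    have hj' : α * j ≤ α * (q - 1) := Nat.mul_le_mul_left _ (by omega)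
    obtain ⟨s, hs⟩ : ∃ s, i + α * (q - 1) = s + α * j := ⟨i + α * (q - 1) - α * j, by omega⟩
    have hsn : s < n := by omega
    have hb : ∀ (b : Fin E) (w : Fin D), (b : ℕ) + s * w < L := by
      intro b w
      have h1 : s * w ≤ n * D := Nat.mul_le_mul hsn.le w.2.le
      have := b.2
      omega
    refine ⟨((⟨b1 + s * u1, hb _ _⟩, ⟨b2 + s * u2, hb _ _⟩), ⟨s, hsn⟩), by simp [winOf], ?_⟩
    refine mem_image.2 ⟨(i, j), ?_, ?_⟩
    · simp only [linePos, mem_filter, mem_product, mem_range]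
      exact ⟨⟨hi, hj⟩, hs⟩
    · have hs' : (i : ℤ) + (α * (q - 1) : ℕ) = s + α * j := by exact_mod_cast hs
      simp only [tilePt, a, u, v, Prod.smul_mk, Prod.mk_add_mk, nsmul_eq_mul, Prod.mk.injEq]
      generalize (α * (q - 1) : ℕ) = m at hs' ⊢
      push_cast
      constructor
      · linear_combination (-(q : ℤ) * u1) * hs'
      · linear_combination (-(q : ℤ) * u2) * hs'
  refine ⟨{p | ∃ i j : ℕ, i < q ∧ j < q ∧ p = a + i • u + j • v}, ⟨a, u, v, ?_, rfl⟩, ?_, ?_⟩
  · rw [LinearIndependent.pair_iff]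
    intro s t hst
    simp only [u, v, Prod.smul_mk, Prod.mk_add_mk, smul_eq_mul, Prod.mk_eq_zero] at hst
    obtain ⟨e1, e2⟩ := hst
    have hdet : (1 : ℤ) + q * (u1 - α * u2) ≠ 0 := by
      intro h
      have h1 : (q : ℤ) ∣ 1 := ⟨α * u2 - u1, by linear_combination h⟩
      have h2 : q ∣ 1 := by exact_mod_cast h1
      have := Nat.le_of_dvd one_pos h2
      omega
    constructor
    · have : s * (1 + q * (u1 - α * u2)) = 0 := by
        linear_combination (1 - (q : ℤ) * α * u2) * e1 + ((q : ℤ) * α * u1) * e2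
      exact (mul_eq_zero.1 this).resolve_right hdet
    · have : t * (1 + q * (u1 - α * u2)) = 0 := by
        linear_combination (-(q : ℤ) * u2) * e1 + (1 + (q : ℤ) * u1) * e2
      exact (mul_eq_zero.1 this).resolve_right hdet
  · rintro p ⟨i, j, hi, hj, rfl⟩
    obtain ⟨x, _, hx⟩ := hmem i j hi hj
    exact blk_subset q α L n N hqL x hx
  · rintro p ⟨i, j, hi, hj, rfl⟩
    obtain ⟨x, hxW, hx⟩ := hmem i j hi hj
    apply hM
    have h1 := hfull (blk_subset q α L n N hqL x hx)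
    rcases mem_union.1 h1 with h2 | h2
    · exact h2
    · exact absurd h2 (disjoint_left.1 (hF x hxW) hx)

end Pool.Agent.P.MP_6045b2_co
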